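import Pool.Agent.Helper57.AG.ELE
import Pool.Agent.Helper71.AG2.Goals

/-! # AG+-ELE': the commutator lies in `Wc` -/

set_option autoImplicit false

namespace Pool.Agent.Helper57.AG2

universe u

open Pool.Agent.Helper71.AG2
open Pool.Agent.Helper32.AG (Wc)
open Pool.Agent.Helper57.AG
open scoped commutatorElement

/-- **Packet ELE'.** -/
theorem ele (hcore : CoreStmt.{u}) (hq : AbpStmt.{u}) : EleStmt.{u} := by
  intro G _ _ p hp V _ hVp hG hc x y hxy
  have hV : V.Normal := inferInstance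
  obtain ⟨W, hW⟩ : ∃ W : Subgroup G, W = Wc V x y := ⟨_, rfl⟩
  rw [← hW]
  have hWV : W ≤ V := by rw [hW]; exact Wc_le x y
  -- elements whose conjugations preserve `W`, in both directions
  have hnorm : ∀ g : G, (∀ w ∈ W, g * w * g⁻¹ ∈ W) → (∀ w ∈ W, g⁻¹ * w * g ∈ W) →
      g ∈ Subgroup.normalizer (W : Set G) := by
    intro g h1 h2
    rw [Subgroup.mem_normalizer_iff]
    intro w
    constructor
    · exact h1 w
    · intro h
      have h3 := h2 _ h
      have h4 : g⁻¹ * (g * w * g⁻¹) * g = w := by group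
      rwa [h4] at h3
  have hyx : ⁅y, x⁆ ∈ V := by
    rw [← commutatorElement_inv]
    exact V.inv_mem hxy
  have hxN : x ∈ Subgroup.normalizer (W : Set G) := by
    apply hnorm
    · rw [hW]
      refine conj_mem_Wc hc (cx := 1) (cy := ⁅x, y⁆) (by group) V.one_mem ?_ hxy
      rw [commutatorElement_def]
      group
    · intro w hw
      have h1 : x⁻¹ * w * x = x⁻¹ * w * (x⁻¹)⁻¹ := by rw [inv_inv]
      rw [h1]
      rw [hW] at hw ⊢
      refine conj_mem_Wc hc (cx := 1) (cy := x⁻¹ * ⁅y, x⁆ * (x⁻¹)⁻¹) (by group) V.one_mem ?_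
        (hV.conj_mem _ hyx _) w hw
      rw [commutatorElement_def]
      group
  have hyN : y ∈ Subgroup.normalizer (W : Set G) := by
    apply hnorm
    · rw [hW]
      refine conj_mem_Wc hc (cx := ⁅y, x⁆) (cy := 1) ?_ hyx (by group) V.one_mem
      rw [commutatorElement_def]
      group
    · intro w hw
      have h1 : y⁻¹ * w * y = y⁻¹ * w * (y⁻¹)⁻¹ := by rw [inv_inv]
      rw [h1]
      rw [hW] at hw ⊢
      refine conj_mem_Wc hc (cx := y⁻¹ * ⁅x, y⁆ * (y⁻¹)⁻¹) (cy := 1) ?_
        (hV.conj_mem _ hxy _) (by group) V.one_mem w hw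
      rw [commutatorElement_def]
      group
  have hVN : V ≤ Subgroup.normalizer (W : Set G) := by
    intro v hv
    apply hnorm
    · intro w hw
      rw [hc v hv w (hWV hw), mul_inv_cancel_right]
      exact hw
    · intro w hw
      rw [hc v⁻¹ (V.inv_mem hv) w (hWV hw), inv_mul_cancel_right]
      exact hw
  -- the subgroup `N`
  obtain ⟨N, hN⟩ : ∃ N : Subgroup G, N = Subgroup.closure ({x, y} ∪ (V : Set G)) := ⟨_, rfl⟩
  have hxm : x ∈ N := by rw [hN]; exact Subgroup.subset_closure (Or.inl (Or.inl rfl))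
  have hym : y ∈ N := by rw [hN]; exact Subgroup.subset_closure (Or.inl (Or.inr rfl))
  have hleN : ∀ D : Subgroup G, x ∈ D → y ∈ D → V ≤ D → N ≤ D := by
    intro D h1 h2 h3
    rw [hN, Subgroup.closure_le]
    rintro g ((rfl | rfl) | h)
    · exact h1
    · exact h2
    · exact h3 h
  have hNW : N ≤ Subgroup.normalizer (W : Set G) := hleN _ hxN hyN hVN
  -- `[V, N] ≤ W`
  have hVNW : ∀ n ∈ N, ∀ v ∈ V, ⁅v, n⁆ ∈ W := by
    intro n hn
    have hn' := hn
    rw [hN] at hn
    induction hn using Subgroup.closure_induction with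
    | mem g hg =>
      intro v hv
      rcases hg with (rfl | rfl) | h
      · rw [hW]; exact Wc_left hv
      · rw [hW]; exact Wc_right hv
      · rw [commutatorElement_eq_one_iff_mul_comm.2 (hc v hv g h)]
        exact W.one_mem
    | one =>
      intro v hv
      rw [commutatorElement_one_right]
      exact W.one_mem
    | mul a b ha hb iha ihb =>
      intro v hv
      rw [← hN] at ha hb
      have h1 : ⁅v, a * b⁆ = ⁅v, a⁆ * (a * ⁅v, b⁆ * a⁻¹) := by
        rw [commutatorElement_def, commutatorElement_def, commutatorElement_def]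
        group
      rw [h1]
      exact W.mul_mem (iha ha v hv)
        ((Subgroup.mem_normalizer_iff.1 (hNW ha) _).1 (ihb hb v hv))
    | inv a ha iha =>
      intro v hv
      rw [← hN] at ha
      have h1 : ⁅v, a⁻¹⁆ = a⁻¹ * ⁅v, a⁆⁻¹ * (a⁻¹)⁻¹ := by
        rw [commutatorElement_def, commutatorElement_def]
        group
      rw [h1]
      exact (Subgroup.mem_normalizer_iff.1 (hNW (N.inv_mem ha)) _).1
        (W.inv_mem (iha ha v hv))
  -- `[N, N] ≤ V`
  have hkey : ∀ a b : G, (QuotientGroup.mk' V a) * (QuotientGroup.mk' V b) =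
      (QuotientGroup.mk' V b) * (QuotientGroup.mk' V a) ↔ ⁅a, b⁆ ∈ V := by
    intro a b
    rw [← map_mul, ← map_mul, commutatorElement_def]
    change ((a * b : G) : G ⧸ V) = ((b * a : G) : G ⧸ V) ↔ _
    rw [eq_comm, QuotientGroup.eq]
    constructor
    · intro h
      have h1 := hV.conj_mem _ h (b * a)
      have h2 : b * a * ((b * a)⁻¹ * (a * b)) * (b * a)⁻¹ = a * b * a⁻¹ * b⁻¹ := by group
      rwa [h2] at h1
    · intro h
      have h1 := hV.conj_mem _ h (b * a)⁻¹
      have h2 : (b * a)⁻¹ * (a * b * a⁻¹ * b⁻¹) * ((b * a)⁻¹)⁻¹ = (b * a)⁻¹ * (a * b) := by group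
      rwa [h2] at h1
  have hNN : ∀ a ∈ N, ∀ b ∈ N, ⁅a, b⁆ ∈ V := by
    have h1 : N ≤ (Subgroup.centralizer {QuotientGroup.mk' V x, QuotientGroup.mk' V y}).comap
        (QuotientGroup.mk' V) := by
      apply hleN
      · rw [Subgroup.mem_comap, Subgroup.mem_centralizer_iff]
        rintro g (rfl | rfl)
        · rfl
        · exact (hkey y x).2 hyx
      · rw [Subgroup.mem_comap, Subgroup.mem_centralizer_iff]
        rintro g (rfl | rfl)
        · exact (hkey x y).2 hxy
        · rfl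
      · intro v hv
        rw [Subgroup.mem_comap, Subgroup.mem_centralizer_iff]
        intro g _
        have : QuotientGroup.mk' V v = 1 := (QuotientGroup.eq_one_iff v).2 hv
        rw [this, mul_one, one_mul]
    have h2 : N ≤ (Subgroup.centralizer ((N.map (QuotientGroup.mk' V) : Subgroup (G ⧸ V)) :
        Set (G ⧸ V))).comap (QuotientGroup.mk' V) := by
      apply hleN
      · rw [Subgroup.mem_comap, Subgroup.mem_centralizer_iff]
        rintro g ⟨a, ha, rfl⟩
        have := (Subgroup.mem_centralizer_iff.1 (Subgroup.mem_comap.1 (h1 ha)))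
          (QuotientGroup.mk' V x) (Or.inl rfl)
        exact this.symm
      · rw [Subgroup.mem_comap, Subgroup.mem_centralizer_iff]
        rintro g ⟨a, ha, rfl⟩
        have := (Subgroup.mem_centralizer_iff.1 (Subgroup.mem_comap.1 (h1 ha)))
          (QuotientGroup.mk' V y) (Or.inr rfl)
        exact this.symm
      · intro v hv
        rw [Subgroup.mem_comap, Subgroup.mem_centralizer_iff]
        intro g _
        have : QuotientGroup.mk' V v = 1 := (QuotientGroup.eq_one_iff v).2 hv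
        rw [this, mul_one, one_mul]
    intro a ha b hb
    rw [← hkey]
    exact (Subgroup.mem_centralizer_iff.1 (Subgroup.mem_comap.1 (h2 hb)))
      (QuotientGroup.mk' V a) ⟨a, ha, rfl⟩
  -- the quotient
  have hnormal : (W.subgroupOf N).Normal := Subgroup.normal_subgroupOf_of_le_normalizer hNW
  have hAb : AbP p (N ⧸ W.subgroupOf N) :=
    hq.1 N (N ⧸ W.subgroupOf N) p (QuotientGroup.mk' _) hp (QuotientGroup.mk'_surjective _)
      (hq.2 N G p N.subtype N.subtype_injective hG)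
  have hmk : ∀ a b : N, ((a : N ⧸ W.subgroupOf N) * (b : N ⧸ W.subgroupOf N) =
      (b : N ⧸ W.subgroupOf N) * (a : N ⧸ W.subgroupOf N)) ↔ ⁅(a : G), (b : G)⁆ ∈ W := by
    intro a b
    rw [← QuotientGroup.mk_mul, ← QuotientGroup.mk_mul, eq_comm, QuotientGroup.eq,
      Subgroup.mem_subgroupOf]
    push_cast
    have hba : ((b : G) * a) ∈ Subgroup.normalizer (W : Set G) := hNW (N.mul_mem b.2 a.2)
    rw [Subgroup.mem_normalizer_iff.1 hba]
    have h2 : (b : G) * a * (((b : G) * a)⁻¹ * ((a : G) * b)) * ((b : G) * a)⁻¹ =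
        ⁅(a : G), (b : G)⁆ := by
      rw [commutatorElement_def]
      group
    rw [h2]
  obtain ⟨X, hX⟩ : ∃ X : N, X = ⟨x, hxm⟩ := ⟨_, rfl⟩
  obtain ⟨Y, hY⟩ : ∃ Y : N, Y = ⟨y, hym⟩ := ⟨_, rfl⟩
  have hc0 : ((X⁻¹ * Y⁻¹ * X * Y : N) : G) ∈ V := by
    have h1 := hNN x⁻¹ (N.inv_mem hxm) y⁻¹ (N.inv_mem hym)
    rw [commutatorElement_def, inv_inv, inv_inv] at h1
    rw [hX, hY]
    exact h1
  obtain ⟨j, hj⟩ := hVp ⟨_, hc0⟩
  have hj' : (X⁻¹ * Y⁻¹ * X * Y : N) ^ p ^ j = 1 := by
    have h1 := congrArg (Subtype.val : V → G) hj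
    apply Subtype.ext
    push_cast
    simpa using h1
  have hcomm : ∀ n : N, ((X⁻¹ * Y⁻¹ * X * Y : N) : N ⧸ W.subgroupOf N) *
      (n : N ⧸ W.subgroupOf N) = (n : N ⧸ W.subgroupOf N) *
        ((X⁻¹ * Y⁻¹ * X * Y : N) : N ⧸ W.subgroupOf N) := by
    intro n
    rw [hmk]
    exact hVNW n n.2 _ hc0
  have hfin := hcore (N ⧸ W.subgroupOf N) (p ^ j) (pow_pos hp.pos j)
    (fun r hr hrp => by
      have h1 : r = p := (Nat.prime_dvd_prime_iff_eq hr hp).1 (hr.dvd_of_dvd_pow hrp)
      rw [h1]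
      exact hAb) (X : N ⧸ W.subgroupOf N) (Y : N ⧸ W.subgroupOf N)
    ((X⁻¹ * Y⁻¹ * X * Y : N) : N ⧸ W.subgroupOf N)
    (by
      rw [← QuotientGroup.mk_mul, ← QuotientGroup.mk_mul, ← QuotientGroup.mk_mul]
      congr 1
      group)
    (hcomm X) (hcomm Y)
    (by
      rw [← QuotientGroup.mk_pow, hj', QuotientGroup.mk_one])
  have h2 : (X : N ⧸ W.subgroupOf N) * (Y : N ⧸ W.subgroupOf N) =
      (Y : N ⧸ W.subgroupOf N) * (X : N ⧸ W.subgroupOf N) := by
    have h3 : X * Y = Y * X * (X⁻¹ * Y⁻¹ * X * Y) := by group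
    rw [← QuotientGroup.mk_mul, h3, QuotientGroup.mk_mul, hfin, mul_one, QuotientGroup.mk_mul]
  have h4 := (hmk X Y).1 h2
  rw [hX, hY] at h4
  exact h4

end Pool.Agent.Helper57.AG2
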